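import Mathlib

/-!
# The externally definable Ramsey property implies fixed points on type spaces

Q1 of MP_fdecab_lc asks for an ultrahomogeneous structure `M` with uncountable age which has the
externally definable Ramsey property (EDRP) but not the fixed points on type spaces property (FPT).
There is none: for every ultrahomogeneous structure `M` in a countable relational language, of any
cardinality and with any age, EDRP implies FPT.

The proof is by compactness.  For a fixed formula `φ(x, y)` and a finite `B` in the age, EDRP and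
the compactness of `S_n(M)` give a finite `C` in the age which works for all types `p` and all
copies of `C` in `M` at the same time (`arrow_one`).  Hence finitely many formulas can be treated
one after the other (`arrow_finset`), and a last compactness argument gives a fixed point.
-/

namespace Pool.Agent.Results.MP_fdecab_lc.EDRPImpliesFPT

open FirstOrder Language Structure

universe u

section Defs

variable (L : FirstOrder.Language.{0, 0})

/-- Let `A` be a finite structure with an enumeration `a`.  The elements `f(a)` of `binom(M, a)`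
correspond to the embeddings `f : A → M`.  A colouring `χ : binom(M, a) → k` is externally
definable if there are an elementary extension `N` of `M` (given by the elementary embedding `j`),
a finite tuple `e` in `N` and formulas `φ i` without parameters such that `χ f = i` iff
`N ⊨ φ i (e, f(a))`. -/
def ExternallyDefinable (M A : Type u) [L.Structure M] [L.Structure A] (k : ℕ)
    (χ : (A ↪[L] M) → Fin k) : Prop :=
  ∃ (N : Type u) (_ : L.Structure N) (j : M ↪ₑ[L] N) (m : ℕ) (e : Fin m → N)
    (φ : Fin k → L.Formula (Fin m ⊕ A)),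
    ∀ (f : A ↪[L] M) (i : Fin k),
      χ f = i ↔ (φ i).Realize (Sum.elim e fun a => j (f a))

/-- The externally definable Ramsey property: for all finite `A`, `B` in the age of `M`, every `k`
and every externally definable `χ : binom(M, a) → k`, there is a copy `B'` of `B` in `M` (the range
of the embedding `g`) such that `χ` is constant on `binom(B', a)`. -/
def EDRP (M : Type u) [L.Structure M] : Prop :=
  ∀ (A B : Type u) [L.Structure A] [L.Structure B] [Finite A] [Finite B],
    Nonempty (A ↪[L] M) → Nonempty (B ↪[L] M) →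
      ∀ (k : ℕ) (χ : (A ↪[L] M) → Fin k), ExternallyDefinable L M A k χ →
        ∃ g : B ↪[L] M, ∀ h h' : A ↪[L] B, χ (g.comp h) = χ (g.comp h')

/-- The formulas `φ(x, b)` in the variables `x = (x_0, ..., x_{n-1})` with a finite tuple `b` of
parameters from `M`. -/
abbrev ParamFormula (M : Type u) (n : ℕ) : Type u :=
  Σ m : ℕ, L.Formula (Fin n ⊕ Fin m) × (Fin m → M)

/-- The complete `n`-types over `M`: the sets `{φ(x, b) : N ⊨ φ(e, b)}` for an elementary extension
`N` of `M` and an `n`-tuple `e` in `N`. -/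
def TypeSpace (M : Type u) [L.Structure M] (n : ℕ) : Type u :=
  {p : Set (ParamFormula L M n) // ∃ (N : Type u) (_ : L.Structure N) (j : M ↪ₑ[L] N)
    (e : Fin n → N), p = {q | q.2.1.Realize (Sum.elim e fun t => j (q.2.2 t))}}

variable {L}

/-- The Stone topology on the space of types: generated by the sets `{p : φ(x, b) ∈ p}` (their
complements are of the same form). -/
instance (M : Type u) [L.Structure M] (n : ℕ) : TopologicalSpace (TypeSpace L M n) :=
  TopologicalSpace.generateFrom {U | ∃ q : ParamFormula L M n, U = {p | q ∈ p.1}}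

/-- The action of the automorphisms of `M` on the types over `M`:
`g p = {φ(x, g b) : φ(x, b) ∈ p}`, i.e. `φ(x, c) ∈ g p` iff `φ(x, g⁻¹ c) ∈ p`. -/
def TypeSpace.act {M : Type u} [L.Structure M] {n : ℕ} (g : M ≃[L] M) (p : TypeSpace L M n) :
    TypeSpace L M n :=
  ⟨{q | (⟨q.1, q.2.1, fun t => g.symm (q.2.2 t)⟩ : ParamFormula L M n) ∈ p.1}, by
    obtain ⟨N, _, j, e, hp⟩ := p.2
    refine ⟨N, inferInstance, j.comp g.symm.toElementaryEmbedding, e, ?_⟩
    ext q
    rw [hp]
    rfl⟩

variable (L)

/-- The fixed points on type spaces property: for every `n ≥ 1`, every subflow `X` of `S_n(M)`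
(a nonempty closed set invariant under the automorphisms of `M`) contains a type fixed by all
automorphisms. -/
def FPT (M : Type u) [L.Structure M] : Prop :=
  ∀ n : ℕ, 1 ≤ n → ∀ X : Set (TypeSpace L M n), X.Nonempty → IsClosed X →
    (∀ (g : M ≃[L] M), ∀ p ∈ X, p.act g ∈ X) → ∃ p ∈ X, ∀ g : M ≃[L] M, p.act g = p

end Defs

section Compactness

variable {L : FirstOrder.Language.{0, 0}} {M : Type u} [L.Structure M] {n : ℕ}

lemma mem_act (g : M ≃[L] M) (p : TypeSpace L M n) (q : ParamFormula L M n) :
    q ∈ (p.act g).1 ↔ (⟨q.1, q.2.1, fun t => g.symm (q.2.2 t)⟩ : ParamFormula L M n) ∈ p.1 :=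
  Iff.rfl

lemma mem_not (p : TypeSpace L M n) (m : ℕ) (φ : L.Formula (Fin n ⊕ Fin m)) (b : Fin m → M) :
    (⟨m, φ.not, b⟩ : ParamFormula L M n) ∈ p.1 ↔ ¬ (⟨m, φ, b⟩ : ParamFormula L M n) ∈ p.1 := by
  obtain ⟨N, _, j, e, hp⟩ := p.2
  rw [hp]
  simp only [Set.mem_ofPred_eq, Formula.realize_not]

/-- Limits of types along ultrafilters are types (by the theorem of Łoś). -/
lemma exists_limit (hn : 1 ≤ n) {I : Type u} (U : Ultrafilter I) (P : I → TypeSpace L M n) :
    ∃ p : TypeSpace L M n, ∀ q, q ∈ p.1 ↔ ∀ᶠ i in (U : Filter I), q ∈ (P i).1 := by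
  choose N S j e hP using fun i => (P i).2
  have hne : ∀ i, Nonempty (N i) := fun i => ⟨e i ⟨0, hn⟩⟩
  let J : M → (U : Filter I).Product N := fun x => ((fun i => j i x : ∀ i, N i) :
    (U : Filter I).Product N)
  have hJ : ∀ {β : Type} (φ : L.Formula β) (x : β → M), φ.Realize (fun t => J (x t)) ↔
      φ.Realize x := by
    intro β φ x
    have h1 := Ultraproduct.realize_formula_cast (u := U) φ (fun t => (fun i => j i (x t)))
    have h2 : (∀ᶠ i in (U : Filter I), φ.Realize fun t => j i (x t)) ↔
        ∀ᶠ i in (U : Filter I), φ.Realize x := by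
      refine Filter.eventually_congr (Filter.Eventually.of_forall fun i => ?_)
      exact (j i).map_formula φ x
    rw [h2, Filter.eventually_const] at h1
    exact h1
  let Je : M ↪ₑ[L] (U : Filter I).Product N :=
    { toFun := J
      map_formula' := fun k φ x => hJ φ x }
  let E : Fin n → (U : Filter I).Product N := fun t => ((fun i => e i t : ∀ i, N i) :
    (U : Filter I).Product N)
  refine ⟨⟨_, (U : Filter I).Product N, inferInstance, Je, E, rfl⟩, ?_⟩
  rintro ⟨m, φ, b⟩
  have h1 := Ultraproduct.realize_formula_cast (u := U) φ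
    (Sum.elim (fun t i => e i t) (fun t i => j i (b t)))
  have h2 : (fun x => ((Sum.elim (fun t i => e i t) (fun t i => j i (b t)) x : ∀ i, N i) :
      (U : Filter I).Product N)) = Sum.elim E fun t => Je (b t) := by
    funext x
    rcases x with x | x <;> rfl
  rw [h2] at h1
  refine h1.trans (Filter.eventually_congr (Filter.Eventually.of_forall fun i => ?_))
  rw [hP i]
  have h3 : (fun x => Sum.elim (fun t i => e i t) (fun t i => j i (b t)) x i) =
      Sum.elim (e i) fun t => j i (b t) := by
    funext x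
    rcases x with x | x <;> rfl
  rw [h3]
  rfl

lemma compact (hn : 1 ≤ n) : CompactSpace (TypeSpace L M n) := by
  refine ⟨isCompact_iff_ultrafilter_le_nhds.2 fun U _ => ?_⟩
  obtain ⟨p, hp⟩ := exists_limit hn U (fun p : TypeSpace L M n => p)
  refine ⟨p, Set.mem_univ _, ?_⟩
  rw [TopologicalSpace.nhds_generateFrom]
  refine le_iInf₂ fun s hs => ?_
  obtain ⟨h1, q, rfl⟩ := hs
  rw [Filter.le_principal_iff]
  exact (hp q).1 h1

lemma isOpen_mem (q : ParamFormula L M n) : IsOpen {p : TypeSpace L M n | q ∈ p.1} :=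
  TopologicalSpace.isOpen_generateFrom_of_mem ⟨q, rfl⟩

lemma isOpen_not_mem (q : ParamFormula L M n) : IsOpen {p : TypeSpace L M n | ¬ q ∈ p.1} := by
  obtain ⟨m, φ, b⟩ := q
  have h : {p : TypeSpace L M n | ¬ (⟨m, φ, b⟩ : ParamFormula L M n) ∈ p.1} =
      {p : TypeSpace L M n | (⟨m, φ.not, b⟩ : ParamFormula L M n) ∈ p.1} := by
    ext p
    exact (mem_not p m φ b).symm
  rw [h]
  exact isOpen_mem _

lemma isOpen_iff (q q' : ParamFormula L M n) :
    IsOpen {p : TypeSpace L M n | q ∈ p.1 ↔ q' ∈ p.1} := by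
  have h : {p : TypeSpace L M n | q ∈ p.1 ↔ q' ∈ p.1} =
      ({p | q ∈ p.1} ∩ {p | q' ∈ p.1}) ∪ ({p | ¬ q ∈ p.1} ∩ {p | ¬ q' ∈ p.1}) := by
    ext p
    simp only [Set.mem_ofPred_eq, Set.mem_union, Set.mem_inter_iff]
    tauto
  rw [h]
  exact ((isOpen_mem q).inter (isOpen_mem q')).union
    ((isOpen_not_mem q).inter (isOpen_not_mem q'))

lemma isClosed_iff (q q' : ParamFormula L M n) :
    IsClosed {p : TypeSpace L M n | q ∈ p.1 ↔ q' ∈ p.1} := by
  rw [← isOpen_compl_iff]
  have h : {p : TypeSpace L M n | q ∈ p.1 ↔ q' ∈ p.1}ᶜ =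
      ({p | q ∈ p.1} ∩ {p | ¬ q' ∈ p.1}) ∪ ({p | ¬ q ∈ p.1} ∩ {p | q' ∈ p.1}) := by
    ext p
    simp only [Set.mem_ofPred_eq, Set.mem_union, Set.mem_inter_iff, Set.mem_compl_iff]
    tauto
  rw [h]
  exact ((isOpen_mem q).inter (isOpen_not_mem q')).union
    ((isOpen_not_mem q).inter (isOpen_mem q'))

end Compactness

section Main

variable {L : FirstOrder.Language.{0, 0}} [L.IsRelational] {M : Type u} [L.Structure M] {n : ℕ}

/-- Replace the parameters of a formula. -/
def withParam (q : ParamFormula L M n) (b : Fin q.1 → M) : ParamFormula L M n := ⟨q.1, q.2.1, b⟩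

/-- The substructure whose elements are the parameters of a formula. -/
def Aof (q : ParamFormula L M n) : L.Substructure M :=
  Substructure.closure L (Set.range q.2.2)

/-- The parameters of a formula, as elements of `Aof`. -/
def sof (q : ParamFormula L M n) (t : Fin q.1) : Aof q :=
  ⟨q.2.2 t, Substructure.subset_closure ⟨t, rfl⟩⟩

instance (q : ParamFormula L M n) : Finite (Aof q) :=
  Substructure.fg_iff_finite.1 (Substructure.fg_closure (Set.finite_range _))

/-- One formula: there is a finite `C` in the age which works for all types and all copies. -/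
lemma arrow_one (hn : 1 ≤ n) (hM : L.IsUltrahomogeneous M) (hE : EDRP L M)
    (q : ParamFormula L M n) (B : Type u) [L.Structure B] [Finite B]
    (hB : Nonempty (B ↪[L] M)) :
    ∃ (C : Type u) (_ : L.Structure C) (_ : Finite C), Nonempty (C ↪[L] M) ∧
      ∀ (p : TypeSpace L M n) (c : C ↪[L] M), ∃ g : B ↪[L] C, ∀ h h' : Aof q ↪[L] B,
        (withParam q (fun t => c (g (h (sof q t)))) ∈ p.1 ↔
          withParam q (fun t => c (g (h' (sof q t)))) ∈ p.1) := by
  classical
  have := compact (L := L) (M := M) hn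
  let O : (B ↪[L] M) → Set (TypeSpace L M n) := fun g =>
    {p | ∀ h h' : Aof q ↪[L] B, (withParam q (fun t => g (h (sof q t))) ∈ p.1 ↔
          withParam q (fun t => g (h' (sof q t))) ∈ p.1)}
  have hfin : Finite (Aof q ↪[L] B) :=
    Finite.of_injective (fun f : Aof q ↪[L] B => (f : Aof q → B)) DFunLike.coe_injective
  have hO : ∀ g, IsOpen (O g) := by
    intro g
    have : O g = ⋂ h : Aof q ↪[L] B, ⋂ h' : Aof q ↪[L] B,
        {p | (withParam q (fun t => g (h (sof q t))) ∈ p.1 ↔
          withParam q (fun t => g (h' (sof q t))) ∈ p.1)} := by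
      ext p
      simp only [O, Set.mem_ofPred_eq, Set.mem_iInter]
    rw [this]
    exact isOpen_iInter_of_finite fun h => isOpen_iInter_of_finite fun h' => isOpen_iff _ _
  have hcov : (Set.univ : Set (TypeSpace L M n)) ⊆ ⋃ g, O g := by
    intro p _
    obtain ⟨m, φ, b⟩ := q
    -- the colouring given by the type `p`
    let χ : (Aof (⟨m, φ, b⟩ : ParamFormula L M n) ↪[L] M) → Fin 2 := fun f =>
      if (⟨m, φ, fun t => f (sof (⟨m, φ, b⟩ : ParamFormula L M n) t)⟩ : ParamFormula L M n) ∈ p.1
        then 1 else 0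
    have hχ : ExternallyDefinable L M (Aof (⟨m, φ, b⟩ : ParamFormula L M n)) 2 χ := by
      obtain ⟨N, _, j, e, hp⟩ := p.2
      let ψ : L.Formula (Fin n ⊕ (Aof (⟨m, φ, b⟩ : ParamFormula L M n))) :=
        φ.relabel (Sum.map id (sof (⟨m, φ, b⟩ : ParamFormula L M n)))
      have hψ : ∀ f : Aof (⟨m, φ, b⟩ : ParamFormula L M n) ↪[L] M,
          ψ.Realize (Sum.elim e fun a => j (f a)) ↔
          (⟨m, φ, fun t => f (sof (⟨m, φ, b⟩ : ParamFormula L M n) t)⟩ : ParamFormula L M n) ∈
            p.1 := by
        intro f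
        rw [hp]
        simp only [ψ, Formula.realize_relabel, Set.mem_ofPred_eq]
        rw [iff_iff_eq]
        congr 1
        funext x
        rcases x with x | x <;> rfl
      refine ⟨N, inferInstance, j, n, e, fun i => if i = 0 then ψ.not else ψ, ?_⟩
      intro f i
      fin_cases i
      · show χ f = 0 ↔ (ψ.not).Realize _
        rw [Formula.realize_not, hψ]
        by_cases h : (⟨m, φ, fun t => f (sof (⟨m, φ, b⟩ : ParamFormula L M n) t)⟩ :
          ParamFormula L M n) ∈ p.1 <;> simp [χ, h]
      · show χ f = 1 ↔ ψ.Realize _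
        rw [hψ]
        by_cases h : (⟨m, φ, fun t => f (sof (⟨m, φ, b⟩ : ParamFormula L M n) t)⟩ :
          ParamFormula L M n) ∈ p.1 <;> simp [χ, h]
    obtain ⟨g, hg⟩ := hE (Aof (⟨m, φ, b⟩ : ParamFormula L M n)) B
      ⟨(Aof (⟨m, φ, b⟩ : ParamFormula L M n)).subtype⟩ hB 2 χ hχ
    refine Set.mem_iUnion.2 ⟨g, fun h h' => ?_⟩
    have h1 := hg h h'
    simp only [χ] at h1
    by_cases h2 : (⟨m, φ, fun t => (g.comp h) (sof (⟨m, φ, b⟩ : ParamFormula L M n) t)⟩ :
          ParamFormula L M n) ∈ p.1
    · by_cases h3 : (⟨m, φ, fun t => (g.comp h') (sof (⟨m, φ, b⟩ : ParamFormula L M n) t)⟩ :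
          ParamFormula L M n) ∈ p.1
      · exact ⟨fun _ => h3, fun _ => h2⟩
      · rw [if_pos h2, if_neg h3] at h1
        exact absurd h1 (by decide)
    · by_cases h3 : (⟨m, φ, fun t => (g.comp h') (sof (⟨m, φ, b⟩ : ParamFormula L M n) t)⟩ :
          ParamFormula L M n) ∈ p.1
      · rw [if_neg h2, if_pos h3] at h1
        exact absurd h1 (by decide)
      · exact ⟨fun h4 => absurd h4 h2, fun h4 => absurd h4 h3⟩
  obtain ⟨T, hT⟩ := isCompact_univ.elim_finite_subcover O hO hcov
  let R : Set M := ⋃ g ∈ T, Set.range g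
  have hR : R.Finite := T.finite_toSet.biUnion fun g _ => Set.finite_range g
  let C : L.Substructure M := Substructure.closure L R
  have hCfg : C.FG := Substructure.fg_closure hR
  refine ⟨C, inferInstance, Substructure.fg_iff_finite.1 hCfg, ⟨C.subtype⟩, ?_⟩
  intro p c
  obtain ⟨H, hH⟩ := hM C hCfg c
  have hHc : ∀ x : C, c x = H x := by
    intro x
    rw [hH]
    rfl
  obtain ⟨g, hgT, hg⟩ : ∃ g ∈ T, p.act H.symm ∈ O g := by
    have := hT (Set.mem_univ (p.act H.symm))
    simpa using this
  have hgC : ∀ x, g x ∈ C := fun x =>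
    Substructure.subset_closure (Set.mem_biUnion hgT ⟨x, rfl⟩)
  refine ⟨g.codRestrict C hgC, fun h h' => ?_⟩
  have h1 := hg h h'
  simp only [mem_act, withParam] at h1
  have h2 : ∀ x : B, c ((g.codRestrict C hgC) x) = H (g x) := by
    intro x
    rw [hHc]
    rfl
  simp only [withParam, h2]
  exact h1

/-- Finitely many formulas at the same time. -/
lemma arrow_finset (hn : 1 ≤ n) (hM : L.IsUltrahomogeneous M) (hE : EDRP L M)
    (u : Finset (ParamFormula L M n)) : ∀ (B : Type u) [L.Structure B] [Finite B],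
    Nonempty (B ↪[L] M) →
    ∃ (C : Type u) (_ : L.Structure C) (_ : Finite C), Nonempty (C ↪[L] M) ∧
      ∀ (p : TypeSpace L M n) (c : C ↪[L] M), ∃ g : B ↪[L] C, ∀ q ∈ u,
        ∀ h h' : Aof q ↪[L] B,
        (withParam q (fun t => c (g (h (sof q t)))) ∈ p.1 ↔
          withParam q (fun t => c (g (h' (sof q t)))) ∈ p.1) := by
  classical
  induction u using Finset.induction_on with
  | empty =>
    intro B _ _ hB
    refine ⟨B, inferInstance, inferInstance, hB, fun p c => ⟨Embedding.refl L B, ?_⟩⟩
    intro q hq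
    simp at hq
  | insert q u hqu ih =>
    intro B _ _ hB
    obtain ⟨C₁, _, _, hC₁, h₁⟩ := ih B hB
    obtain ⟨C₂, _, _, hC₂, h₂⟩ := arrow_one hn hM hE q C₁ hC₁
    refine ⟨C₂, inferInstance, inferInstance, hC₂, fun p c => ?_⟩
    obtain ⟨g₂, hg₂⟩ := h₂ p c
    obtain ⟨g₁, hg₁⟩ := h₁ p (c.comp g₂)
    refine ⟨g₂.comp g₁, fun r hr h h' => ?_⟩
    rcases Finset.mem_insert.1 hr with rfl | hr
    · exact hg₂ (g₁.comp h) (g₁.comp h')
    · exact hg₁ r hr h h'

end Main

/-- **Negative answer to Q1 of MP_fdecab_lc.**  Every ultrahomogeneous structure `M` in a countable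
relational language (in particular every one with uncountable age) which has EDRP also has FPT. -/
theorem result (L : FirstOrder.Language.{0, 0}) [L.IsRelational] [Countable (Σ n, L.Relations n)]
    (M : Type u) [L.Structure M] (hM : L.IsUltrahomogeneous M) (hE : EDRP L M) : FPT L M := by
  classical
  intro n hn X hX hXc hXinv
  have := compact (L := L) (M := M) hn
  have key : (X ∩ ⋂ x : ParamFormula L M n × (M ≃[L] M),
      {p : TypeSpace L M n | x.1 ∈ p.1 ↔ withParam x.1 (fun t => x.2 (x.1.2.2 t)) ∈ p.1}).Nonempty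
      := by
    refine hXc.isCompact.inter_iInter_nonempty _ (fun x => isClosed_iff _ _) fun u => ?_
    -- a finite substructure containing all parameters involved
    let R : Set M := ⋃ x ∈ u, (Set.range x.1.2.2 ∪ x.2 '' Set.range x.1.2.2)
    have hR : R.Finite := u.finite_toSet.biUnion fun x _ =>
      (Set.finite_range _).union ((Set.finite_range _).image _)
    let B : L.Substructure M := Substructure.closure L R
    have hBfg : B.FG := Substructure.fg_closure hR
    have : Finite B := Substructure.fg_iff_finite.1 hBfg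
    obtain ⟨C, _, _, ⟨c⟩, hC⟩ := arrow_finset hn hM hE (u.image Prod.fst) B ⟨B.subtype⟩
    obtain ⟨p, hp⟩ := hX
    obtain ⟨g, hg⟩ := hC p c
    obtain ⟨H, hH⟩ := hM B hBfg (c.comp g)
    have hHc : ∀ x : B, c (g x) = H x := by
      intro x
      have : (c.comp g) x = H x := by
        rw [hH]
        rfl
      exact this
    refine ⟨p.act H.symm, hXinv _ _ hp, ?_⟩
    simp only [Set.mem_iInter]
    rintro ⟨q, γ⟩ hx
    have hxu : ∀ a ∈ Aof q, a ∈ B := by
      intro a ha
      refine (Substructure.closure_le.2 ?_ : Aof q ≤ B) ha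
      intro y hy
      exact Substructure.subset_closure (Set.mem_biUnion hx (Or.inl hy))
    have hxu' : ∀ a ∈ Aof q, γ a ∈ B := by
      intro a ha
      have ha' : a ∈ Set.range q.2.2 := by
        have h1 : ((Substructure.closure L (Set.range q.2.2) : L.Substructure M) : Set M) =
          Set.range q.2.2 := Substructure.closure_eq_of_isRelational L _
        rw [← h1]
        exact ha
      exact Substructure.subset_closure (Set.mem_biUnion hx (Or.inr ⟨a, ha', rfl⟩))
    let h : Aof q ↪[L] B := (Aof q).subtype.codRestrict B fun a => hxu a a.2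
    let h' : Aof q ↪[L] B := (γ.toEmbedding.comp (Aof q).subtype).codRestrict B
      fun a => hxu' a a.2
    have h1 := hg q (Finset.mem_image_of_mem Prod.fst hx) h h'
    simp only [hHc] at h1
    exact h1
  obtain ⟨p, hpX, hp⟩ := key
  refine ⟨p, hpX, fun g => Subtype.ext (Set.ext fun q => ?_)⟩
  rw [mem_act]
  have h1 := Set.mem_iInter.1 hp
    (⟨q.1, q.2.1, fun t => g.symm (q.2.2 t)⟩, g)
  have h2 : withParam (L := L) (M := M) (n := n) ⟨q.1, q.2.1, fun t => g.symm (q.2.2 t)⟩
      (fun t => g (g.symm (q.2.2 t))) = q := by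
    simp [withParam]
  have h3 : (⟨q.1, q.2.1, fun t => g.symm (q.2.2 t)⟩ : ParamFormula L M n) ∈ p.1 ↔
      withParam (L := L) (M := M) (n := n) ⟨q.1, q.2.1, fun t => g.symm (q.2.2 t)⟩
      (fun t => g (g.symm (q.2.2 t))) ∈ p.1 := h1
  rw [h2] at h3
  exact h3

end Pool.Agent.Results.MP_fdecab_lc.EDRPImpliesFPT
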